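import Pool.Agent.Helper91.SY.Goals

set_option autoImplicit false

open Set Filter Topology
open scoped ContDiff

namespace Pool.Agent.Helper73.SY

open Pool.Agent.Helper91.SY

theorem anti {E : Type} [NormedAddCommGroup E] [NormedSpace ℝ E]
    (C : E →L[ℝ] E →L[ℝ] ℝ) (h : ∀ u, C u u = 0) (u v : E) : C u v = - C v u := by
  have h1 := h (u + v)
  simp only [map_add, add_apply, h, zero_add, add_zero] at h1
  linarith

theorem br_ (hHV : StmtHV) : StmtBR := by
  intro E _ _ _ B a b p q H h hB hP hH hh hdH hHh hinv hpos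
  have hr : ContDiff ℝ ∞ (fun x => √(2 * h x)) := by
    apply ContDiff.sqrt
    · exact contDiff_const.mul hh
    · intro x; have := hpos x; positivity
  have hf : ContDiff ℝ ∞ (fun x => p x * √(2 * h x)) := p.contDiff.mul hr
  have hg : ContDiff ℝ ∞ (fun x => q x * √(2 * h x)) := q.contDiff.mul hr
  obtain ⟨X, hX, hX2⟩ := hHV E B _ hB hf
  obtain ⟨Y, hY, hY2⟩ := hHV E B _ hB hg
  refine ⟨X, Y, hX, hY, hX2, hY2, ?_⟩
  have hrd : ∀ x, HasFDerivAt (fun x => √(2 * h x)) (fderiv ℝ (fun x => √(2 * h x)) x) x :=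
    fun x => (hr.differentiable (by simp) x).hasFDerivAt
  have hhd : ∀ x, HasFDerivAt h (fderiv ℝ h x) x := fun x => (hh.differentiable (by simp) x).hasFDerivAt
  have hrpos : ∀ x, 0 < √(2 * h x) := fun x => Real.sqrt_pos.2 (by have := hpos x; positivity)
  have hdf : ∀ x v, fderiv ℝ (fun x => p x * √(2 * h x)) x v
      = p x * fderiv ℝ (fun x => √(2 * h x)) x v + √(2 * h x) * p v := by
    intro x v
    have h1 : HasFDerivAt (fun x => p x * √(2 * h x)) _ x := (p.hasFDerivAt (x := x)).mul (hrd x)
    rw [h1.fderiv]; simp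
  have hdg : ∀ x v, fderiv ℝ (fun x => q x * √(2 * h x)) x v
      = q x * fderiv ℝ (fun x => √(2 * h x)) x v + √(2 * h x) * q v := by
    intro x v
    have h1 : HasFDerivAt (fun x => q x * √(2 * h x)) _ x := (q.hasFDerivAt (x := x)).mul (hrd x)
    rw [h1.fderiv]; simp
  -- derivative of h along J
  have hJx : ∀ x, Jr a b p q x = p x • b - q x • a := by intro x; simp [Jr]
  have hhJ : ∀ x, fderiv ℝ h x (Jr a b p q x) = 0 := by
    intro x
    have hc : HasDerivAt (fun θ : ℝ => Rot a b p q θ x) (Jr a b p q x) 0 := by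
      have e1 : (fun θ : ℝ => Rot a b p q θ x) = fun θ : ℝ => x + (Real.cos θ - 1) • (p x • a + q x • b)
          + Real.sin θ • (p x • b - q x • a) := by
        funext θ; simp [Rot]
      rw [e1, hJx]
      have hcos : HasDerivAt (fun θ : ℝ => Real.cos θ - 1) 0 0 := by
        simpa using (Real.hasDerivAt_cos 0).sub_const 1
      have hsin : HasDerivAt (fun θ : ℝ => Real.sin θ) 1 0 := by
        simpa using (Real.hasDerivAt_sin 0)
      have h2 := ((hcos.smul_const (p x • a + q x • b)).const_add x).add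
        (hsin.smul_const (p x • b - q x • a))
      have h3 : HasDerivAt (fun θ : ℝ => x + (Real.cos θ - 1) • (p x • a + q x • b)
          + Real.sin θ • (p x • b - q x • a))
          ((0 : ℝ) • (p x • a + q x • b) + (1 : ℝ) • (p x • b - q x • a)) 0 := h2
      rw [zero_smul, one_smul, zero_add] at h3
      exact h3
    have h0 : Rot a b p q 0 x = x := by simp [Rot]
    have hd : HasDerivAt (fun θ : ℝ => h (Rot a b p q θ x)) (fderiv ℝ h x (Jr a b p q x)) 0 := by
      have := hhd x
      rw [← h0] at this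
      have h3 := this.comp_hasDerivAt (0 : ℝ) hc
      rw [h0] at h3
      exact h3
    have hd2 : HasDerivAt (fun θ : ℝ => h (Rot a b p q θ x)) 0 0 := by
      have : (fun θ : ℝ => h (Rot a b p q θ x)) = fun _ => h x := by funext θ; exact hinv θ x
      rw [this]; exact hasDerivAt_const _ _
    exact hd.unique hd2
  have hrJ : ∀ x, fderiv ℝ (fun x => √(2 * h x)) x (Jr a b p q x) = 0 := by
    intro x
    have h1 : HasFDerivAt (fun x => 2 * h x) ((2 : ℝ) • fderiv ℝ h x) x := (hhd x).const_mul 2
    have h2 := h1.sqrt (by have := hpos x; positivity)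
    rw [h2.fderiv]
    simp [hhJ x]
  have hpJ : ∀ x, p (Jr a b p q x) = - q x := by intro x; rw [hJx]; simp [hP.pa, hP.pb]
  have hqJ : ∀ x, q (Jr a b p q x) = p x := by intro x; rw [hJx]; simp [hP.qa, hP.qb]
  -- f df + g dg = dH
  have hsum : ∀ x v, (p x * √(2 * h x)) * fderiv ℝ (fun x => p x * √(2 * h x)) x v
      + (q x * √(2 * h x)) * fderiv ℝ (fun x => q x * √(2 * h x)) x v = fderiv ℝ H x v := by
    intro x v
    have e1 : H = fun x => ((p x * √(2 * h x)) * (p x * √(2 * h x))
        + (q x * √(2 * h x)) * (q x * √(2 * h x))) * (1 / 2) := by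
      funext y
      rw [hHh]
      have := Real.mul_self_sqrt (show 0 ≤ 2 * h y by have := hpos y; positivity)
      nlinarith [this]
    have hf' : HasFDerivAt (fun x => p x * √(2 * h x)) (fderiv ℝ (fun x => p x * √(2 * h x)) x) x :=
      (hf.differentiable (by simp) x).hasFDerivAt
    have hg' : HasFDerivAt (fun x => q x * √(2 * h x)) (fderiv ℝ (fun x => q x * √(2 * h x)) x) x :=
      (hg.differentiable (by simp) x).hasFDerivAt
    have h3 := ((hf'.mul hf').add (hg'.mul hg')).mul_const (1 / 2 : ℝ)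
    have h4 : fderiv ℝ (fun x => ((p x * √(2 * h x)) * (p x * √(2 * h x))
        + (q x * √(2 * h x)) * (q x * √(2 * h x))) * (1 / 2)) x = _ := h3.fderiv
    rw [e1, h4]
    simp only [smul_apply, add_apply, smul_eq_mul]
    ring
  have hkey : ∀ x, (p x * √(2 * h x)) • X x + (q x * √(2 * h x)) • Y x = - Jr a b p q x := by
    intro x
    have h0 : (p x * √(2 * h x)) • X x + (q x * √(2 * h x)) • Y x + Jr a b p q x = 0 := by
      apply hB.nondeg x
      intro v
      simp only [map_add, map_smul, add_apply, smul_apply,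
        smul_eq_mul]
      rw [hX2 x v, hY2 x v, hsum x v, hdH x v]
      ring
    exact eq_neg_of_add_eq_zero_left h0
  have hA : ∀ x u v, B x u v = - B x v u := fun x => anti (B x) (hB.alt x)
  have hJc : ∀ x, Jr a b p q x = - ((p x * √(2 * h x)) • X x + (q x * √(2 * h x)) • Y x) := by
    intro x; rw [hkey x, neg_neg]
  have hc1 : ∀ x, (q x * √(2 * h x)) * B x (X x) (Y x) = q x * √(2 * h x) := by
    intro x
    have h1 := hX2 x (Jr a b p q x)
    rw [hdf, hrJ, hpJ] at h1
    rw [hJc x] at h1
    simp only [map_neg, map_add, map_smul, smul_eq_mul, hB.alt] at h1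
    nlinarith [h1]
  have hc2 : ∀ x, (p x * √(2 * h x)) * B x (X x) (Y x) = p x * √(2 * h x) := by
    intro x
    have h1 := hY2 x (Jr a b p q x)
    rw [hdg, hrJ, hqJ] at h1
    rw [hJc x] at h1
    simp only [map_neg, map_add, map_smul, smul_eq_mul, hB.alt] at h1
    rw [hA x (Y x) (X x)] at h1
    nlinarith [h1]
  have hoff : ∀ x, (p x ≠ 0 ∨ q x ≠ 0) → B x (X x) (Y x) = 1 := by
    intro x hx
    rcases hx with hx | hx
    · have h2 : p x * √(2 * h x) ≠ 0 := mul_ne_zero hx (hrpos x).ne'
      exact mul_left_cancel₀ h2 (by rw [hc2 x, mul_one])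
    · have h2 : q x * √(2 * h x) ≠ 0 := mul_ne_zero hx (hrpos x).ne'
      exact mul_left_cancel₀ h2 (by rw [hc1 x, mul_one])
  intro x
  by_cases hx : p x ≠ 0 ∨ q x ≠ 0
  · exact hoff x hx
  · push Not at hx
    have hcont : Continuous (fun t : ℝ => B (x + t • a) (X (x + t • a)) (Y (x + t • a))) := by
      have hl : Continuous (fun t : ℝ => x + t • a) := by fun_prop
      exact ((hB.smooth.continuous.comp hl).clm_apply (hX.continuous.comp hl)).clm_apply
        (hY.continuous.comp hl)
    have h1 : Tendsto (fun t : ℝ => B (x + t • a) (X (x + t • a)) (Y (x + t • a))) (𝓝[≠] 0)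
        (𝓝 (B x (X x) (Y x))) := by
      have := hcont.continuousAt (x := (0 : ℝ))
      have h2 : Tendsto (fun t : ℝ => B (x + t • a) (X (x + t • a)) (Y (x + t • a))) (𝓝 0)
        (𝓝 (B x (X x) (Y x))) := by simpa [ContinuousAt] using this
      exact h2.mono_left nhdsWithin_le_nhds
    have h3 : Tendsto (fun t : ℝ => B (x + t • a) (X (x + t • a)) (Y (x + t • a))) (𝓝[≠] 0)
        (𝓝 1) := by
      apply tendsto_const_nhds.congr'
      filter_upwards [self_mem_nhdsWithin] with t ht
      symm
      apply hoff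
      left
      simp only [map_add, map_smul, hx.1, hP.pa, smul_eq_mul, mul_one, zero_add]
      exact ht
    exact tendsto_nhds_unique h1 h3

end Pool.Agent.Helper73.SY
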